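import Pool.Agent.N977.P.Stm
import Pool.Agent.N977.Q.Tw4
import Pool.Agent.N977.S.Op3

/-!
The packet operator belongs to the class `LowE` (project NSP of helper977).
-/

open MeasureTheory Set Filter Topology
open scoped ContDiff ComplexConjugate

namespace Pool.Agent.N835.NSP

open H459R3.NS Pool.Agent.N977.Q Pool.Agent.N977.S Pool.Agent.N977.P

variable {J : ℕ → ℕ} {G : Fin 2 → ℕ → K3 → ℝ} {α μ : ℕ → ℝ} {u v w : V → V}

/-! ### finite sums -/

theorem am_eq {g : K3 → ℝ} (hg : {k | g k ≠ 0}.Finite) (u : V → V) :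
    am g u = ∑ k ∈ hg.toFinset, g k * (fr (fun x => u x 2) k).re := by
  unfold am
  refine tsum_eq_sum fun k hk => ?_
  have : g k = 0 := by
    by_contra h
    exact hk (hg.mem_toFinset.2 h)
  rw [this, zero_mul]

theorem Xf_eq {g : K3 → ℝ} (hg : {k | g k ≠ 0}.Finite) (x : V) :
    Xf g x = ∑ k ∈ hg.toFinset, g k * Real.cos (2 * Real.pi * ph k x) := by
  unfold Xf
  refine tsum_eq_sum fun k hk => ?_
  have : g k = 0 := by
    by_contra h
    exact hk (hg.mem_toFinset.2 h)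
  rw [this, zero_mul]

theorem am_add {g : K3 → ℝ} (hg : {k | g k ≠ 0}.Finite) (hu : SPV u) (hv : SPV v) :
    am g (fun x => u x + v x) = am g u + am g v := by
  rw [am_eq hg, am_eq hg, am_eq hg, ← Finset.sum_add_distrib]
  refine Finset.sum_congr rfl fun k _ => ?_
  have : (fun x => (u x + v x) 2) = fun x => u x 2 + v x 2 := rfl
  rw [this, fr_add (spv_sp hu 2).cont (spv_sp hv 2).cont, Complex.add_re]
  ring

theorem am_smul {g : K3 → ℝ} (hg : {k | g k ≠ 0}.Finite) (r : ℝ) (u : V → V) :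
    am g (fun x => r • u x) = r * am g u := by
  rw [am_eq hg, am_eq hg, Finset.mul_sum]
  refine Finset.sum_congr rfl fun k _ => ?_
  have : (fun x => (r • u x) 2) = fun x => r * u x 2 := rfl
  rw [this, fr_smul, Complex.re_ofReal_mul]
  ring

theorem am_const {g : K3 → ℝ} (hg : {k | g k ≠ 0}.Finite) (h0 : g 0 = 0) (hu : SPV u) (a : V) :
    am g (fun x => u x + a) = am g u := by
  rw [am_eq hg, am_eq hg]
  refine Finset.sum_congr rfl fun k hk => ?_
  have hk0 : k ≠ 0 := by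
    rintro rfl
    exact (hg.mem_toFinset.1 hk) h0
  have : (fun x => (u x + a) 2) = fun x => u x 2 + a 2 := rfl
  rw [this, fr_add (spv_sp hu 2).cont continuous_const, fr_const' _ hk0, add_zero]

theorem int_cos {f : V → ℝ} (hf : Continuous f) (k : K3) :
    ∫ x in cube, Real.cos (2 * Real.pi * ph k x) * f x = (fr f k).re := by
  have h := int_Rm_mul k 1 hf
  have e : ∀ x, Rm k 1 x = Real.cos (2 * Real.pi * ph k x) := by
    intro x
    unfold Rm
    rw [one_mul, ee_eq]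
    simp only [Complex.add_re, Complex.ofReal_re, Complex.mul_re, Complex.I_re, Complex.I_im,
      Complex.ofReal_im, mul_zero, zero_mul, sub_zero, add_zero]
  simp_rw [e] at h
  rw [h, one_mul, fr_neg' hf, Complex.conj_re]

theorem cos_cont (k : K3) : Continuous fun x : V => Real.cos (2 * Real.pi * ph k x) := by
  unfold ph
  fun_prop

theorem int_Xf {g : K3 → ℝ} (hg : {k | g k ≠ 0}.Finite) (hw : SPV w) :
    ∫ x in cube, Xf g x * w x 2 = am g w := by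
  have hf := (spv_sp hw 2).cont
  rw [am_eq hg]
  have e : ∀ x, Xf g x * w x 2
      = ∑ k ∈ hg.toFinset, g k * (Real.cos (2 * Real.pi * ph k x) * w x 2) := by
    intro x
    rw [Xf_eq hg, Finset.sum_mul]
    exact Finset.sum_congr rfl fun k _ => by ring
  simp_rw [e]
  rw [integral_finsetSum]
  · refine Finset.sum_congr rfl fun k _ => ?_
    rw [integral_const_mul, int_cos hf]
  · intro k _
    exact integrableOn_cube (continuous_const.mul ((cos_cont k).mul hf))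

/-! ### the frequencies of the packets -/

theorem len_sq (k : K3) : len k ^ 2 = ∑ j, (k j : ℝ) ^ 2 :=
  Real.sq_sqrt (Finset.sum_nonneg fun _ _ => sq_nonneg _)

theorem len_qq (e : Fin 2) (n : ℕ) :
    4 * (Mn 8 n : ℝ) ^ 2 ≤ len (qq e n) ^ 2 ∧ len (qq e n) ^ 2 ≤ 5 * (Mn 8 n : ℝ) ^ 2 := by
  rw [len_sq, Fin.sum_univ_three]
  fin_cases e
  · simp [qq, dv, ev]
    constructor <;> nlinarith [sq_nonneg (Mn 8 n : ℝ)]
  · simp [qq, dv, ev]
    constructor <;> nlinarith [sq_nonneg (Mn 8 n : ℝ)]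

theorem Mn8 (n : ℕ) : 8 ≤ Mn 8 n := by
  unfold Mn
  have : 1 ≤ 2 ^ n := Nat.one_le_two_pow
  omega

theorem freq (hP : Pk J G) {e : Fin 2} {n : ℕ} {k : K3} (hk : G e n k ≠ 0) :
    (Mn 8 n : ℝ) ≤ len k ∧ len k ≤ 5 / 2 * (Mn 8 n : ℝ) := by
  have h1 := hP.near e n k hk
  have h2 := hP.J2 n
  obtain ⟨h3, h4⟩ := len_qq e n
  have hM : (8 : ℝ) ≤ Mn 8 n := by exact_mod_cast Mn8 n
  rw [abs_le] at h1
  have h5 : 7 * ((Mn 8 n : ℝ) * ((J n : ℝ) - 1)) ≤ 7 / 1000 * (Mn 8 n : ℝ) ^ 2 := by nlinarith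
  have hl := len_nonneg k
  constructor
  · nlinarith
  · nlinarith

theorem G_zero (hP : Pk J G) (e : Fin 2) (n : ℕ) : G e n 0 = 0 := by
  by_contra h
  obtain ⟨h1, _⟩ := freq hP h
  have hM : (8 : ℝ) ≤ Mn 8 n := by exact_mod_cast Mn8 n
  have : len 0 = 0 := by unfold len; simp
  linarith

theorem lev' {M : ℕ} (hM : 3 ≤ M) {k : K3} (h1 : (M : ℝ) ≤ len k) (h5 : len k ≤ 5 * M) (s : ℝ)
    {a : ℝ} (ha : 0 ≤ a) : (M : ℝ) ^ s * Real.log M ^ a ≤ 5 ^ |s| * wt s a k := by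
  have hM3 : (3 : ℝ) ≤ M := by exact_mod_cast hM
  have hM0 : (0 : ℝ) < M := by linarith
  have hlog := one_le_log hM
  have hk : k ≠ 0 := by
    rintro rfl
    have : len 0 = 0 := by unfold len; simp
    linarith
  unfold Pool.Agent.N977.Q.wt
  rw [if_neg hk]
  set x := len k / M with hx
  have hx1 : 1 ≤ x := by rw [hx, le_div_iff₀ hM0]; linarith
  have hx5 : x ≤ 5 := by rw [hx, div_le_iff₀ hM0]; linarith
  have hkx : len k = M * x := by rw [hx]; field_simp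
  have e1 := len_rpow_ge hx1 hx5 s
  have e2 : Real.log M ^ a ≤ Real.log (2 + len k) ^ a := by
    apply Real.rpow_le_rpow (by linarith) _ ha
    apply Real.log_le_log (by linarith)
    linarith
  have e3 : len k ^ s = (M : ℝ) ^ s * x ^ s := by
    rw [hkx, Real.mul_rpow (by linarith) (by linarith)]
  rw [e3]
  have hp : 0 ≤ (M : ℝ) ^ s := by positivity
  have hq : 0 ≤ Real.log M ^ a := by positivity
  calc (M : ℝ) ^ s * Real.log M ^ a ≤ (M : ℝ) ^ s * (5 ^ |s| * x ^ s) * Real.log M ^ a := by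
        apply mul_le_mul_of_nonneg_right _ hq
        exact le_mul_of_one_le_right hp e1
    _ ≤ (M : ℝ) ^ s * (5 ^ |s| * x ^ s) * Real.log (2 + len k) ^ a := by
        apply mul_le_mul_of_nonneg_left e2
        have : 0 ≤ x ^ s := by positivity
        positivity
    _ = _ := by ring

/-! ### the norms of the packets -/

/-- the weighted `L²` norm of the frequencies of a packet -/
noncomputable def nrm (hP : Pk J G) (s a : ℝ) (u : V → V) (e : Fin 2) (n : ℕ) : ℝ :=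
  √(∑ k ∈ (hP.fin e n).toFinset, (wt s a k * un u k) ^ 2)

theorem nrm_nonneg (hP : Pk J G) (s a : ℝ) (u : V → V) (e : Fin 2) (n : ℕ) :
    0 ≤ nrm hP s a u e n := Real.sqrt_nonneg _

theorem nrm_sq (hP : Pk J G) (s a : ℝ) (u : V → V) (e : Fin 2) (n : ℕ) :
    nrm hP s a u e n ^ 2 = ∑ k ∈ (hP.fin e n).toFinset, (wt s a k * un u k) ^ 2 :=
  Real.sq_sqrt (Finset.sum_nonneg fun _ _ => sq_nonneg _)

theorem sq_one (hP : Pk J G) (e : Fin 2) (n : ℕ) :
    ∑ k ∈ (hP.fin e n).toFinset, G e n k ^ 2 = 1 := by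
  rw [← hP.sq e n]
  symm
  refine tsum_eq_sum fun k hk => ?_
  have : G e n k = 0 := by
    by_contra h
    exact hk ((hP.fin e n).mem_toFinset.2 h)
  rw [this]; simp

theorem am_le (hP : Pk J G) (u : V → V) (e : Fin 2) (n : ℕ) {s a m c : ℝ} (hm : 0 ≤ m)
    (hc : 0 ≤ c) (h : ∀ k, G e n k ≠ 0 → m ≤ c * wt s a k) :
    m * |am (G e n) u| ≤ c * nrm hP s a u e n := by
  rw [am_eq (hP.fin e n)]
  have h1 : |∑ k ∈ (hP.fin e n).toFinset, G e n k * (fr (fun x => u x 2) k).re|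
      ≤ ∑ k ∈ (hP.fin e n).toFinset, |G e n k| * un u k := by
    refine (Finset.abs_sum_le_sum_abs _ _).trans (Finset.sum_le_sum fun k _ => ?_)
    rw [abs_mul]
    exact mul_le_mul_of_nonneg_left ((Complex.abs_re_le_norm _).trans (fr_le_un _ _ _))
      (abs_nonneg _)
  have h2 : m * ∑ k ∈ (hP.fin e n).toFinset, |G e n k| * un u k
      ≤ c * ∑ k ∈ (hP.fin e n).toFinset, |G e n k| * (wt s a k * un u k) := by
    rw [Finset.mul_sum, Finset.mul_sum]
    refine Finset.sum_le_sum fun k hk => ?_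
    have h3 := h k ((hP.fin e n).mem_toFinset.1 hk)
    have h4 := mul_le_mul_of_nonneg_right h3
      (mul_nonneg (abs_nonneg (G e n k)) (un_nonneg u k))
    linarith
  have h3 := Real.sum_mul_le_sqrt_mul_sqrt (hP.fin e n).toFinset (fun k => |G e n k|)
    (fun k => wt s a k * un u k)
  simp only [sq_abs] at h3
  rw [sq_one hP e n, Real.sqrt_one, one_mul] at h3
  calc m * |∑ k ∈ (hP.fin e n).toFinset, G e n k * (fr (fun x => u x 2) k).re|
      ≤ m * ∑ k ∈ (hP.fin e n).toFinset, |G e n k| * un u k := mul_le_mul_of_nonneg_left h1 hm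
    _ ≤ _ := h2
    _ ≤ c * nrm hP s a u e n := mul_le_mul_of_nonneg_left h3 hc

theorem nrm_sum (hP : Pk J G) (hu : SPV u) (s a : ℝ) (e : Fin 2) :
    Summable (fun n => nrm hP s a u e n ^ 2) ∧ ∑' n, nrm hP s a u e n ^ 2 ≤ Hn s a u ^ 2 := by
  classical
  have key : ∀ S : Finset ℕ, ∑ n ∈ S, nrm hP s a u e n ^ 2 ≤ Hn s a u ^ 2 := by
    intro S
    simp_rw [nrm_sq]
    rw [← Finset.sum_biUnion, Hn_sq_un]
    · exact (wun_summable hu s a).sum_le_tsum _ fun _ _ => sq_nonneg _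
    · intro n _ m _ hnm
      rw [Function.onFun, Finset.disjoint_left]
      intro k hk hk'
      exact hnm (hP.disj e n e m k ((hP.fin e n).mem_toFinset.1 hk)
        ((hP.fin e m).mem_toFinset.1 hk')).2
  have hs : Summable (fun n => nrm hP s a u e n ^ 2) :=
    summable_of_sum_le (fun n => sq_nonneg _) key
  exact ⟨hs, hs.tsum_le_of_sum_le key⟩

theorem nrm_seq (hP : Pk J G) (hu : SPV u) (s a : ℝ) (e : Fin 2) (d : ℕ) :
    Summable (fun n => nrm hP s a u e (n + d) ^ 2) ∧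
      ∑' n, nrm hP s a u e (n + d) ^ 2 ≤ Hn s a u ^ 2 := by
  obtain ⟨h1, h2⟩ := nrm_sum hP hu s a e
  have hi : Function.Injective fun n : ℕ => n + d := fun a b h => by simpa using h
  exact ⟨h1.comp_injective hi, (tsum_comp_le_tsum_of_inj h1 (fun k => sq_nonneg _) hi).trans h2⟩

theorem nrm_le (hP : Pk J G) (hu : SPV u) (s a : ℝ) (e : Fin 2) (n : ℕ) :
    nrm hP s a u e n ≤ Hn s a u := by
  obtain ⟨h1, h2⟩ := nrm_sum hP hu s a e
  have h3 := (h1.le_tsum n fun _ _ => sq_nonneg _).trans h2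
  exact (sq_le_sq₀ (nrm_nonneg _ _ _ _ _ _) (Hn_nonneg _ _ _)).1 h3

theorem am_lev (hP : Pk J G) (u : V → V) (e : Fin 2) (n : ℕ) {d : ℕ} (hd : d ≤ 1) (s : ℝ) {a : ℝ}
    (ha : 0 ≤ a) : (Mn 8 n : ℝ) ^ s * Real.log (Mn 8 n) ^ a * |am (G e (n + d)) u|
      ≤ 5 ^ |s| * nrm hP s a u e (n + d) := by
  have hM : (8 : ℝ) ≤ Mn 8 n := by exact_mod_cast Mn8 n
  have hlog := one_le_log (le_trans (by norm_num) (Mn8 n) : 3 ≤ Mn 8 n)
  refine am_le hP u e (n + d) (by positivity) (by positivity) fun k hk => ?_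
  obtain ⟨h1, h2⟩ := freq hP hk
  have h3 : (Mn 8 n : ℝ) ≤ Mn 8 (n + d) ∧ (Mn 8 (n + d) : ℝ) ≤ 2 * Mn 8 n := by
    interval_cases d
    · rw [add_zero]
      constructor <;> linarith
    · have : (Mn 8 (n + 1) : ℝ) = 2 * Mn 8 n := by unfold Mn; push_cast; ring
      rw [this]
      constructor <;> linarith
  exact lev' (le_trans (by norm_num) (Mn8 n)) (by linarith) (by linarith) s ha

theorem am_rd (hP : Pk J G) (hu : SPV u) (e : Fin 2) : Rd 8 fun n => am (G e n) u := by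
  intro s
  refine ⟨5 ^ |(s : ℝ)| * Hn s 0 u, mul_nonneg (by positivity) (Hn_nonneg _ _ _), fun n => ?_⟩
  have h1 := am_lev hP u e n (d := 0) (by norm_num) s (le_refl (0 : ℝ))
  rw [Real.rpow_zero, mul_one, Real.rpow_natCast, add_zero] at h1
  exact h1.trans (mul_le_mul_of_nonneg_left (nrm_le hP hu _ _ _ _) (by positivity))

/-! ### the trilinear sums -/

theorem tri_sum' (hP : Pk J G) {g : ℝ} (hg : 0 ≤ g) {cn : ℕ → ℝ} {σ p : ℝ}
    (hcn : ∀ n, |cn n| ≤ g * ((Mn 8 n : ℝ) ^ σ * Real.log (Mn 8 n) ^ p))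
    {s₁ s₂ s₃ a₁ a₂ a₃ : ℝ} (hs : s₁ + s₂ + s₃ = σ) (h1 : 0 ≤ a₁) (h2 : 0 ≤ a₂) (h3 : 0 ≤ a₃)
    (ha : a₁ + a₂ + a₃ = p) {u v w : V → V} (hu : SPV u) (hv : SPV v) (hw : SPV w)
    (e₁ e₂ e₃ : Fin 2) {d₁ d₂ d₃ : ℕ} (hd₁ : d₁ ≤ 1) (hd₂ : d₂ ≤ 1) (hd₃ : d₃ ≤ 1) :
    Summable (fun n => |cn n| * (|am (G e₁ (n + d₁)) u| * |am (G e₂ (n + d₂)) v|
      * |am (G e₃ (n + d₃)) w|)) ∧
    ∑' n, |cn n| * (|am (G e₁ (n + d₁)) u| * |am (G e₂ (n + d₂)) v| * |am (G e₃ (n + d₃)) w|)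
      ≤ g * 5 ^ (|s₁| + |s₂| + |s₃|) * (Hn s₁ a₁ u * Hn s₂ a₂ v * Hn s₃ a₃ w) := by
  set A : ℕ → ℝ := fun n => nrm hP s₁ a₁ u e₁ (n + d₁) with hA
  set B : ℕ → ℝ := fun n => nrm hP s₂ a₂ v e₂ (n + d₂) with hB
  set C : ℕ → ℝ := fun n => nrm hP s₃ a₃ w e₃ (n + d₃) with hC
  have hA0 : ∀ n, 0 ≤ A n := fun n => nrm_nonneg _ _ _ _ _ _
  have hB0 : ∀ n, 0 ≤ B n := fun n => nrm_nonneg _ _ _ _ _ _
  have hC0 : ∀ n, 0 ≤ C n := fun n => nrm_nonneg _ _ _ _ _ _
  obtain ⟨b1, b2⟩ := nrm_seq hP hv s₂ a₂ e₂ d₂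
  obtain ⟨c1, c2⟩ := nrm_seq hP hw s₃ a₃ e₃ d₃
  obtain ⟨k1, k2⟩ := cs3 (A := A) (B := B) (C := C) (Hn_nonneg s₁ a₁ u) (Hn_nonneg s₂ a₂ v)
    (Hn_nonneg s₃ a₃ w) (fun n => by rw [abs_of_nonneg (hA0 n)]; exact nrm_le hP hu _ _ _ _)
    b1 b2 c1 c2
  have key : ∀ n, |cn n| * (|am (G e₁ (n + d₁)) u| * |am (G e₂ (n + d₂)) v|
      * |am (G e₃ (n + d₃)) w|) ≤ (g * 5 ^ (|s₁| + |s₂| + |s₃|)) * |A n * B n * C n| := by
    intro n
    have hM8 : (8 : ℝ) ≤ Mn 8 n := by exact_mod_cast Mn8 n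
    have hM : (0 : ℝ) < Mn 8 n := by linarith
    have hL := one_le_log (le_trans (by norm_num) (Mn8 n) : 3 ≤ Mn 8 n)
    have e1 := am_lev hP u e₁ n hd₁ s₁ h1
    have e2 := am_lev hP v e₂ n hd₂ s₂ h2
    have e3 := am_lev hP w e₃ n hd₃ s₃ h3
    have hσ : (Mn 8 n : ℝ) ^ σ * Real.log (Mn 8 n) ^ p
        = ((Mn 8 n : ℝ) ^ s₁ * Real.log (Mn 8 n) ^ a₁) * ((Mn 8 n : ℝ) ^ s₂ * Real.log (Mn 8 n) ^ a₂)
          * ((Mn 8 n : ℝ) ^ s₃ * Real.log (Mn 8 n) ^ a₃) := by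
      rw [← hs, ← ha, Real.rpow_add hM, Real.rpow_add hM, Real.rpow_add (by linarith),
        Real.rpow_add (by linarith)]
      ring
    rw [abs_of_nonneg (mul_nonneg (mul_nonneg (hA0 n) (hB0 n)) (hC0 n))]
    set X := |am (G e₁ (n + d₁)) u| with hX
    set Y := |am (G e₂ (n + d₂)) v| with hY
    set Z := |am (G e₃ (n + d₃)) w| with hZ
    have X0 : 0 ≤ X := abs_nonneg _
    have Y0 : 0 ≤ Y := abs_nonneg _
    have Z0 : 0 ≤ Z := abs_nonneg _
    have m1 : 0 ≤ (Mn 8 n : ℝ) ^ s₁ * Real.log (Mn 8 n) ^ a₁ := by positivity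
    have m2 : 0 ≤ (Mn 8 n : ℝ) ^ s₂ * Real.log (Mn 8 n) ^ a₂ := by positivity
    have m3 : 0 ≤ (Mn 8 n : ℝ) ^ s₃ * Real.log (Mn 8 n) ^ a₃ := by positivity
    have n1 := hA0 n
    have n2 := hB0 n
    have n3 := hC0 n
    have hprod := mul_le_mul (mul_le_mul e1 e2 (mul_nonneg m2 Y0)
      (mul_nonneg (by positivity) n1)) e3 (mul_nonneg m3 Z0)
      (mul_nonneg (mul_nonneg (by positivity) n1) (mul_nonneg (by positivity) n2))
    calc |cn n| * (X * Y * Z)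
        ≤ (g * ((Mn 8 n : ℝ) ^ σ * Real.log (Mn 8 n) ^ p)) * (X * Y * Z) :=
          mul_le_mul_of_nonneg_right (hcn n) (by positivity)
      _ = g * (((Mn 8 n : ℝ) ^ s₁ * Real.log (Mn 8 n) ^ a₁ * X)
          * ((Mn 8 n : ℝ) ^ s₂ * Real.log (Mn 8 n) ^ a₂ * Y)
          * ((Mn 8 n : ℝ) ^ s₃ * Real.log (Mn 8 n) ^ a₃ * Z)) := by rw [hσ]; ring
      _ ≤ g * ((5 ^ |s₁| * A n) * (5 ^ |s₂| * B n) * (5 ^ |s₃| * C n)) :=
          mul_le_mul_of_nonneg_left hprod hg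
      _ = _ := by
          rw [Real.rpow_add (by norm_num), Real.rpow_add (by norm_num)]
          ring
  have hsum := Summable.of_nonneg_of_le (fun n => mul_nonneg (abs_nonneg _)
    (mul_nonneg (mul_nonneg (abs_nonneg _) (abs_nonneg _)) (abs_nonneg _))) key
    (k1.mul_left (g * 5 ^ (|s₁| + |s₂| + |s₃|)))
  refine ⟨hsum, (hsum.tsum_le_tsum key (k1.mul_left _)).trans ?_⟩
  rw [tsum_mul_left]
  exact mul_le_mul_of_nonneg_left k2 (by positivity)

/-! ### the trilinear form -/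

/-- the terms of the trilinear form -/
noncomputable def Tp (G : Fin 2 → ℕ → K3 → ℝ) (α μ : ℕ → ℝ) (u v w : V → V) (n : ℕ) : ℝ :=
  am (G 1 n) u * (α n * (am (G 1 n) v * (am (G 0 (n + 1)) w - am (G 0 n) w)
      - (am (G 0 (n + 1)) v - am (G 0 n) v) * am (G 1 n) w)
    + μ n * (am (G 1 n) v * am (G 1 (n + 1)) w - am (G 1 (n + 1)) v * am (G 1 n) w))

theorem KP_two (u v : V → V) : (fun x => KP G α μ u v x 2) = kp G α μ u v := by
  funext x; unfold KP; rw [if_pos rfl]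

theorem KP_ne (u v : V → V) {i : Fin 3} (hi : i ≠ 2) :
    (fun x => KP G α μ u v x i) = fun _ => 0 := by
  funext x; unfold KP; rw [if_neg hi]

theorem KP_tri (hOP : S_OP) (hP : Pk J G) (h : Ga 8 α μ) (hu : SPV u) (hv : SPV v) (hw : SPV w) :
    HasSum (Tp G α μ u v w) (∑ i, ∫ x in cube, KP G α μ u v x i * w x i) := by
  have hN := h.N1
  have e : (∑ i, ∫ x in cube, KP G α μ u v x i * w x i)
      = ∫ x in cube, kp G α μ u v x * w x 2 := by
    rw [Fin.sum_univ_three]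
    have h0 : ∀ i : Fin 3, i ≠ 2 → ∫ x in cube, KP G α μ u v x i * w x i = 0 := by
      intro i hi
      have h1 : (fun x => KP G α μ u v x i * w x i) = fun _ => 0 := by
        funext x
        rw [show KP G α μ u v x i = 0 from congrFun (KP_ne (G := G) (α := α) (μ := μ) u v hi) x,
          zero_mul]
      rw [h1, integral_zero]
    rw [h0 0 (by decide), h0 1 (by decide), zero_add, zero_add]
    have h2 : (fun x => KP G α μ u v x 2 * w x 2) = fun x => kp G α μ u v x * w x 2 := by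
      funext x
      rw [show KP G α μ u v x 2 = kp G α μ u v x from
        congrFun (KP_two (G := G) (α := α) (μ := μ) u v) x]
    rw [h2]
  rw [e]
  have h1 := (hOP J G α μ hP h).2.1 u v hu hv (fun x => w x 2) (spv_sp hw 2).cont
  simp only [int_Xf (hP.fin 0 _) hw, int_Xf (hP.fin 1 _) hw] at h1
  set A : ℕ → ℝ := fun n => α n * (am (G 1 n) u * am (G 1 n) v) with hA
  set B : ℕ → ℝ := fun n => μ n * (am (G 1 n) u * am (G 1 n) v) with hB
  set P : ℕ → ℝ := fun n => α n * (am (G 1 n) u * (am (G 0 n) v - am (G 0 (n + 1)) v)) with hPd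
  set Q : ℕ → ℝ := fun n => μ n * (am (G 1 n) u * am (G 1 (n + 1)) v) with hQ
  have rA : Rd 8 A := ((am_rd hP hu 1).mul (am_rd hP hv 1)).coef zero_le_one h.a3
  have rB : Rd 8 B := ((am_rd hP hu 1).mul (am_rd hP hv 1)).coef zero_le_one h.m3
  have rP : Rd 8 P :=
    ((am_rd hP hu 1).mul ((am_rd hP hv 0).sub (am_rd hP hv 0).succ)).coef zero_le_one h.a3
  have rQ : Rd 8 Q := ((am_rd hP hu 1).mul (am_rd hP hv 1).succ).coef zero_le_one h.m3
  have rx := am_rd hP hw 0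
  have ry := am_rd hP hw 1
  have s1 := (rA.mul rx.succ).summable hN
  have s2 := (rA.mul rx).summable hN
  have s3 := (rP.mul ry).summable hN
  have s4 := (rB.mul ry.succ).summable hN
  have s5 := (rQ.mul ry).summable hN
  have t1 := sh_sum (A := A) (g := fun n => am (G 0 n) w) s1
  have t4 := sh_sum (A := B) (g := fun n => am (G 1 n) w) s4
  have k1 := (((t1.sub s2.hasSum).add s3.hasSum).add t4).sub s5.hasSum
  have k2 := (((s1.hasSum.sub s2.hasSum).add s3.hasSum).add s4.hasSum).sub s5.hasSum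
  have k3 : HasSum (fun n => (cXp G α u v n) * am (G 0 n) w + (cYp G α μ u v n) * am (G 1 n) w) _ :=
    hs_congr' k1 fun n => by
      simp only [cXp, cYp, hA, hB, hPd, hQ]
      ring
  rw [h1.unique k3]
  refine hs_congr' k2 fun n => ?_
  simp only [Tp, hA, hB, hPd, hQ]
  ring

theorem KP_energy (hOP : S_OP) (hP : Pk J G) (h : Ga 8 α μ) (hu : SPV u) (hv : SPV v) :
    ∑ i, ∫ x in cube, KP G α μ u v x i * v x i = 0 := by
  have h1 := KP_tri hOP hP h hu hv hv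
  have h2 : Tp G α μ u v v = fun _ => 0 := by
    funext n
    unfold Tp
    ring
  rw [h2] at h1
  exact h1.unique hasSum_zero

theorem KP_bound (hOP : S_OP) (hP : Pk J G) (h : Ga 8 α μ) {g σ p : ℝ} (hg : 0 ≤ g)
    (hα : ∀ n, |α n| ≤ g * ((Mn 8 n : ℝ) ^ σ * Real.log (Mn 8 n) ^ p))
    (hμ : ∀ n, |μ n| ≤ g * ((Mn 8 n : ℝ) ^ σ * Real.log (Mn 8 n) ^ p))
    {s₁ s₂ s₃ a₁ a₂ a₃ : ℝ} (hs : s₁ + s₂ + s₃ = σ) (h1 : 0 ≤ a₁) (h2 : 0 ≤ a₂) (h3 : 0 ≤ a₃)
    (ha : a₁ + a₂ + a₃ = p) (hu : SPV u) (hv : SPV v) (hw : SPV w) :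
    |∑ i, ∫ x in cube, KP G α μ u v x i * w x i|
      ≤ (6 * g) * 5 ^ (|s₁| + |s₂| + |s₃|) * (Hn s₁ a₁ u * Hn s₂ a₂ v * Hn s₃ a₃ w) := by
  set R := g * 5 ^ (|s₁| + |s₂| + |s₃|) * (Hn s₁ a₁ u * Hn s₂ a₂ v * Hn s₃ a₃ w) with hR
  obtain ⟨x1, y1⟩ := tri_sum' hP hg hα hs h1 h2 h3 ha hu hv hw 1 1 0 (d₁ := 0) (d₂ := 0) (d₃ := 1)
    (by norm_num) (by norm_num) (by norm_num)
  obtain ⟨x2, y2⟩ := tri_sum' hP hg hα hs h1 h2 h3 ha hu hv hw 1 1 0 (d₁ := 0) (d₂ := 0) (d₃ := 0)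
    (by norm_num) (by norm_num) (by norm_num)
  obtain ⟨x3, y3⟩ := tri_sum' hP hg hα hs h1 h2 h3 ha hu hv hw 1 0 1 (d₁ := 0) (d₂ := 1) (d₃ := 0)
    (by norm_num) (by norm_num) (by norm_num)
  obtain ⟨x4, y4⟩ := tri_sum' hP hg hα hs h1 h2 h3 ha hu hv hw 1 0 1 (d₁ := 0) (d₂ := 0) (d₃ := 0)
    (by norm_num) (by norm_num) (by norm_num)
  obtain ⟨x5, y5⟩ := tri_sum' hP hg hμ hs h1 h2 h3 ha hu hv hw 1 1 1 (d₁ := 0) (d₂ := 0) (d₃ := 1)
    (by norm_num) (by norm_num) (by norm_num)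
  obtain ⟨x6, y6⟩ := tri_sum' hP hg hμ hs h1 h2 h3 ha hu hv hw 1 1 1 (d₁ := 0) (d₂ := 1) (d₃ := 0)
    (by norm_num) (by norm_num) (by norm_num)
  simp only [add_zero] at x1 x2 x3 x4 x5 x6 y1 y2 y3 y4 y5 y6
  have hT : ∀ a b c γ : ℝ, |γ * (a * b * c)| = |γ| * (|a| * |b| * |c|) := by
    intro a b c γ
    rw [abs_mul, abs_mul, abs_mul]
  have hle : ∀ n, |Tp G α μ u v w n| ≤
      ((((((|α n| * (|am (G 1 n) u| * |am (G 1 n) v| * |am (G 0 (n + 1)) w|))
        + (|α n| * (|am (G 1 n) u| * |am (G 1 n) v| * |am (G 0 n) w|)))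
        + (|α n| * (|am (G 1 n) u| * |am (G 0 (n + 1)) v| * |am (G 1 n) w|)))
        + (|α n| * (|am (G 1 n) u| * |am (G 0 n) v| * |am (G 1 n) w|)))
        + (|μ n| * (|am (G 1 n) u| * |am (G 1 n) v| * |am (G 1 (n + 1)) w|)))
        + (|μ n| * (|am (G 1 n) u| * |am (G 1 (n + 1)) v| * |am (G 1 n) w|))) := by
    intro n
    have e : Tp G α μ u v w n
        = α n * (am (G 1 n) u * am (G 1 n) v * am (G 0 (n + 1)) w)
          - α n * (am (G 1 n) u * am (G 1 n) v * am (G 0 n) w)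
          - α n * (am (G 1 n) u * am (G 0 (n + 1)) v * am (G 1 n) w)
          + α n * (am (G 1 n) u * am (G 0 n) v * am (G 1 n) w)
          + μ n * (am (G 1 n) u * am (G 1 n) v * am (G 1 (n + 1)) w)
          - μ n * (am (G 1 n) u * am (G 1 (n + 1)) v * am (G 1 n) w) := by
      unfold Tp; ring
    simp only [← hT]
    rw [e, abs_le]
    have b1 := abs_le.1 (le_refl |α n * (am (G 1 n) u * am (G 1 n) v * am (G 0 (n + 1)) w)|)
    have b2 := abs_le.1 (le_refl |α n * (am (G 1 n) u * am (G 1 n) v * am (G 0 n) w)|)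
    have b3 := abs_le.1 (le_refl |α n * (am (G 1 n) u * am (G 0 (n + 1)) v * am (G 1 n) w)|)
    have b4 := abs_le.1 (le_refl |α n * (am (G 1 n) u * am (G 0 n) v * am (G 1 n) w)|)
    have b5 := abs_le.1 (le_refl |μ n * (am (G 1 n) u * am (G 1 n) v * am (G 1 (n + 1)) w)|)
    have b6 := abs_le.1 (le_refl |μ n * (am (G 1 n) u * am (G 1 (n + 1)) v * am (G 1 n) w)|)
    constructor <;> linarith
  have hs1 := ((((x1.add x2).add x3).add x4).add x5).add x6
  have h4 := tsum_of_norm_bounded hs1.hasSum (fun n => by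
    rw [Real.norm_eq_abs]; exact hle n)
  rw [(KP_tri hOP hP h hu hv hw).tsum_eq, Real.norm_eq_abs,
    ((((x1.add x2).add x3).add x4).add x5).tsum_add x6,
    (((x1.add x2).add x3).add x4).tsum_add x5, ((x1.add x2).add x3).tsum_add x4,
    (x1.add x2).tsum_add x3, x1.tsum_add x2] at h4
  refine h4.trans ?_
  have e : (6 * g) * 5 ^ (|s₁| + |s₂| + |s₃|) * (Hn s₁ a₁ u * Hn s₂ a₂ v * Hn s₃ a₃ w)
      = 6 * R := by rw [hR]; ring
  rw [e]
  linarith

/-! ### bilinearity -/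

theorem KP_congr {u u' v v' : V → V} (h1 : ∀ n, am (G 1 n) u = am (G 1 n) u')
    (h2 : ∀ n, am (G 1 n) v = am (G 1 n) v') (h3 : ∀ n, am (G 0 n) v = am (G 0 n) v') :
    KP G α μ u v = KP G α μ u' v' := by
  have hX : cXp G α u v = cXp G α u' v' := by
    funext n; unfold cXp; simp only [h1, h2]
  have hY : cYp G α μ u v = cYp G α μ u' v' := by
    funext n; unfold cYp; simp only [h1, h2, h3]
  funext x i
  unfold KP kp
  rw [hX, hY]

theorem cXp_rd (hP : Pk J G) (h : Ga 8 α μ) (hu : SPV u) (hv : SPV v) :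
    Rd 8 (cXp G α u v) := by
  have h1 := ((am_rd hP hu 1).mul (am_rd hP hv 1)).coef zero_le_one h.a3
  exact h1.sh.sub h1

theorem cYp_rd (hP : Pk J G) (h : Ga 8 α μ) (hu : SPV u) (hv : SPV v) :
    Rd 8 (cYp G α μ u v) := by
  have h1 := ((am_rd hP hu 1).mul (am_rd hP hv 1)).coef zero_le_one h.m3
  have h2 := ((am_rd hP hu 1).mul ((am_rd hP hv 0).sub (am_rd hP hv 0).succ)).coef zero_le_one h.a3
  have h3 := ((am_rd hP hu 1).mul (am_rd hP hv 1).succ).coef zero_le_one h.m3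
  exact (h2.add h1.sh).sub h3

theorem Xf_abs (hP : Pk J G) (e : Fin 2) (n : ℕ) (x : V) :
    |Xf (G e n) x| ≤ 1 * (Mn 8 n : ℝ) ^ 1 := by
  have hM8 : (8 : ℝ) ≤ Mn 8 n := by exact_mod_cast Mn8 n
  have h1 : |Xf (G e n) x| ≤ ∑' k, |G e n k| := by
    rw [Xf_eq (hP.fin e n)]
    have e1 : ∑' k, |G e n k| = ∑ k ∈ (hP.fin e n).toFinset, |G e n k| := by
      refine tsum_eq_sum fun k hk => ?_
      have : G e n k = 0 := by
        by_contra h
        exact hk ((hP.fin e n).mem_toFinset.2 h)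
      rw [this]; simp
    rw [e1]
    refine (Finset.abs_sum_le_sum_abs _ _).trans (Finset.sum_le_sum fun k _ => ?_)
    rw [abs_mul]
    exact mul_le_of_le_one_right (abs_nonneg _) (Real.abs_cos_le_one _)
  have h2 := hP.l1 e n
  have h3 := hP.J2 n
  rw [pow_one, one_mul]
  linarith

theorem kp_lin (hP : Pk J G) (h : Ga 8 α μ) {u₁ v₁ u₂ v₂ u₃ v₃ : V → V} (r s : ℝ)
    (hu₁ : SPV u₁) (hv₁ : SPV v₁) (hu₂ : SPV u₂) (hv₂ : SPV v₂)
    (eX : ∀ n, cXp G α u₃ v₃ n = r * cXp G α u₁ v₁ n + s * cXp G α u₂ v₂ n)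
    (eY : ∀ n, cYp G α μ u₃ v₃ n = r * cYp G α μ u₁ v₁ n + s * cYp G α μ u₂ v₂ n) (x : V) :
    kp G α μ u₃ v₃ x = r * kp G α μ u₁ v₁ x + s * kp G α μ u₂ v₂ x := by
  have hN := h.N1
  have sm : ∀ {f : ℕ → ℝ}, Rd 8 f → ∀ e : Fin 2, Summable fun n => f n * Xf (G e n) x := by
    intro f hf e
    have h1 := (hf.coef (c := fun n => Xf (G e n) x) zero_le_one
      (fun n => Xf_abs hP e n x)).summable hN
    exact h1.congr fun n => by ring
  have s1 := ((sm (cXp_rd hP h hu₁ hv₁) 0).add (sm (cYp_rd hP h hu₁ hv₁) 1)).mul_left r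
  have s2 := ((sm (cXp_rd hP h hu₂ hv₂) 0).add (sm (cYp_rd hP h hu₂ hv₂) 1)).mul_left s
  unfold kp
  rw [← tsum_mul_left, ← tsum_mul_left, ← s1.tsum_add s2]
  refine tsum_congr fun n => ?_
  rw [eX, eY]
  ring

theorem KP_lin (hP : Pk J G) (h : Ga 8 α μ) {u₁ v₁ u₂ v₂ u₃ v₃ : V → V} (r s : ℝ)
    (hu₁ : SPV u₁) (hv₁ : SPV v₁) (hu₂ : SPV u₂) (hv₂ : SPV v₂)
    (e2 : ∀ n m, am (G 1 n) u₃ * am (G 1 m) v₃
      = r * (am (G 1 n) u₁ * am (G 1 m) v₁) + s * (am (G 1 n) u₂ * am (G 1 m) v₂))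
    (e0 : ∀ n m, am (G 1 n) u₃ * am (G 0 m) v₃
      = r * (am (G 1 n) u₁ * am (G 0 m) v₁) + s * (am (G 1 n) u₂ * am (G 0 m) v₂)) :
    KP G α μ u₃ v₃ = fun x => r • KP G α μ u₁ v₁ x + s • KP G α μ u₂ v₂ x := by
  have eX : ∀ n, cXp G α u₃ v₃ n = r * cXp G α u₁ v₁ n + s * cXp G α u₂ v₂ n := by
    intro n
    unfold cXp
    rw [sh_lin (f₁ := fun n => α n * (am (G 1 n) u₁ * am (G 1 n) v₁))
      (f₂ := fun n => α n * (am (G 1 n) u₂ * am (G 1 n) v₂)) (r := r) (s := s)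
      (fun n => by rw [e2]; ring), e2]
    ring
  have eY : ∀ n, cYp G α μ u₃ v₃ n = r * cYp G α μ u₁ v₁ n + s * cYp G α μ u₂ v₂ n := by
    intro n
    unfold cYp
    rw [sh_lin (f₁ := fun n => μ n * (am (G 1 n) u₁ * am (G 1 n) v₁))
      (f₂ := fun n => μ n * (am (G 1 n) u₂ * am (G 1 n) v₂)) (r := r) (s := s)
      (fun n => by rw [e2]; ring), e2, mul_sub (am (G 1 n) u₃), e0, e0]
    ring
  funext x i
  simp only [KP, Pi.add_apply, Pi.smul_apply, smul_eq_mul]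
  by_cases hi : i = 2
  · rw [if_pos hi, if_pos hi, if_pos hi]
    exact kp_lin hP h r s hu₁ hv₁ hu₂ hv₂ eX eY x
  · rw [if_neg hi, if_neg hi, if_neg hi]
    ring

theorem kp_two (hP : Pk J G) (u v : V → V) (a : ℝ) (x : V) :
    kp G α μ u v (x + Pi.single 2 a) = kp G α μ u v x := by
  have h : ∀ e n, Xf (G e n) (x + Pi.single 2 a) = Xf (G e n) x := by
    intro e n
    unfold Xf
    refine tsum_congr fun k => ?_
    by_cases hk : G e n k = 0
    · rw [hk, zero_mul, zero_mul]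
    · have h2 := hP.hor e n k hk
      have : ph k (x + Pi.single 2 a) = ph k x := by
        unfold ph
        rw [Fin.sum_univ_three, Fin.sum_univ_three]
        simp [h2]
      rw [this]
  unfold kp
  exact tsum_congr fun n => by rw [h, h]

theorem KP_divfree (hOP : S_OP) (hP : Pk J G) (h : Ga 8 α μ) (hu : SPV u) (hv : SPV v) (x : V) :
    ∑ i, pd i (fun y => KP G α μ u v y i) x = 0 := by
  have hK := spv_sp ((hOP J G α μ hP h).1 u v hu hv) 2
  rw [KP_two] at hK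
  rw [Fin.sum_univ_three, KP_two, KP_ne u v (by decide), KP_ne u v (by decide),
    pd_two_ind hK (kp_two hP u v)]
  simp [pd]

/-- **The packet operator belongs to the class `LowE`.** -/
theorem low : S_LOW := by
  intro hOP J G α μ hP h g σ p δ hg hα hμ hδ
  exact
  { smooth := fun u v hu hv => (hOP J G α μ hP h).1 u v hu hv
    add_left := fun u u' v hu hu' hv => by
      have := KP_lin hP h (u₁ := u) (v₁ := v) (u₂ := u') (v₂ := v) (u₃ := fun x => u x + u' x)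
        (v₃ := v) 1 1 hu hv hu' hv (fun n m => by rw [am_add (hP.fin _ _) hu hu']; ring)
        (fun n m => by rw [am_add (hP.fin _ _) hu hu']; ring)
      simpa using this
    add_right := fun u v v' hu hv hv' => by
      have := KP_lin hP h (u₁ := u) (v₁ := v) (u₂ := u) (v₂ := v') (u₃ := u)
        (v₃ := fun x => v x + v' x) 1 1 hu hv hu hv'
        (fun n m => by rw [am_add (hP.fin _ _) hv hv']; ring)
        (fun n m => by rw [am_add (hP.fin _ _) hv hv']; ring)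
      simpa using this
    smul_left := fun r u v hu hv => by
      have := KP_lin hP h (u₁ := u) (v₁ := v) (u₂ := u) (v₂ := v) (u₃ := fun x => r • u x)
        (v₃ := v) r 0 hu hv hu hv (fun n m => by rw [am_smul (hP.fin _ _)]; ring)
        (fun n m => by rw [am_smul (hP.fin _ _)]; ring)
      simpa using this
    smul_right := fun r u v hu hv => by
      have := KP_lin hP h (u₁ := u) (v₁ := v) (u₂ := u) (v₂ := v) (u₃ := u)
        (v₃ := fun x => r • v x) r 0 hu hv hu hv (fun n m => by rw [am_smul (hP.fin _ _)]; ring)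
        (fun n m => by rw [am_smul (hP.fin _ _)]; ring)
      simpa using this
    const_left := fun a u v hu _ =>
      KP_congr (fun n => am_const (hP.fin _ _) (G_zero hP _ _) hu a) (fun _ => rfl) fun _ => rfl
    const_right := fun a u v _ hv =>
      KP_congr (fun _ => rfl) (fun n => am_const (hP.fin _ _) (G_zero hP _ _) hv a)
        fun n => am_const (hP.fin _ _) (G_zero hP _ _) hv a
    divfree := fun _ _ hu hv x => KP_divfree hOP hP h hu hv x
    energy := fun _ _ hu hv => KP_energy hOP hP h hu hv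
    bound := fun u v w hu hv hw s₁ s₂ s₃ a₁ a₂ a₃ hs h1 h2 h3 ha => by
      refine (KP_bound hOP hP h hg hα hμ hs h1 h2 h3 ha hu hv hw).trans ?_
      have hH := mul_nonneg (mul_nonneg (Hn_nonneg s₁ a₁ u) (Hn_nonneg s₂ a₂ v))
        (Hn_nonneg s₃ a₃ w)
      exact mul_le_mul_of_nonneg_right (mul_le_mul_of_nonneg_right (by linarith) (by positivity))
        hH }

end Pool.Agent.N835.NSP
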